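import Mathlib

set_option autoImplicit false

namespace Pool.Agent.Results.MP_a51b5f_co.Superpoly

open Classical

/-- `I` is the incidence relation of a projective plane with points `P` and lines `L`. -/
def IsPlane {P L : Type} (I : P → L → Prop) : Prop :=
  (∀ p q : P, p ≠ q → ∃! l, I p l ∧ I q l) ∧ (∀ l m : L, l ≠ m → ∃! p, I p l ∧ I p m) ∧
    ∃ f : Fin 4 → P, Function.Injective f ∧ ∀ l : L, {i | I (f i) l}.ncard ≤ 2

/-- The incidence graph on points and lines. -/
def incGraph {P L : Type} (I : P → L → Prop) : SimpleGraph (P ⊕ L) :=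
  SimpleGraph.fromRel fun x y => ∃ p l, x = Sum.inl p ∧ y = Sum.inr l ∧ I p l

/-- `D` is a `k`-dominating independent set of `G`. -/
def IsDIS {V : Type} (k : ℕ) (G : SimpleGraph V) (D : Set V) : Prop :=
  (∀ u ∈ D, ∀ v ∈ D, ¬ G.Adj u v) ∧ ∀ v, v ∉ D → k ≤ (G.neighborSet v ∩ D).ncard

abbrev T (F : Type) := (F × F) ⊕ Option F

def inc {F : Type} [Field F] : T F → T F → Prop
  | .inl (x, y), .inl (m, c) => y = m * x + c
  | .inl (x, _), .inr (some c) => x = c
  | .inl _, .inr none => False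
  | .inr (some m), .inl (m', _) => m = m'
  | .inr (some _), .inr (some _) => False
  | .inr (some _), .inr none => True
  | .inr none, .inl _ => False
  | .inr none, .inr _ => True

section
variable {F : Type} [Field F]

lemma uniq (p q l m : T F) (h1 : inc p l) (h2 : inc q l) (h3 : inc p m) (h4 : inc q m) :
    p = q ∨ l = m := by
  rcases p with ⟨x, y⟩ | _ | a <;> rcases q with ⟨x', y'⟩ | _ | a' <;>
    rcases l with ⟨s, c⟩ | _ | b <;> rcases m with ⟨s', c'⟩ | _ | b' <;>
    simp only [inc] at h1 h2 h3 h4 <;> first | (simp_all; done) | skip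
  by_cases hx : x = x'
  · left; subst hx; rw [h1, h2]
  · right
    have : (s - s') * (x - x') = 0 := by linear_combination h3 - h4 - h1 + h2
    have hs : s = s' := sub_eq_zero.1 ((mul_eq_zero.1 this).resolve_right (sub_ne_zero.2 hx))
    subst hs
    have : c = c' := by linear_combination h3 - h1
    rw [this]

lemma ex_line (p q : T F) : ∃ l, inc p l ∧ inc q l := by
  rcases p with ⟨x, y⟩ | _ | a <;> rcases q with ⟨x', y'⟩ | _ | a'
  · by_cases hx : x = x'
    · exact ⟨.inr (some x), rfl, hx.symm⟩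
    · refine ⟨.inl ((y - y') / (x - x'), y - (y - y') / (x - x') * x), ?_, ?_⟩
      · simp [inc]
      · have := sub_ne_zero.2 hx
        simp only [inc]; field_simp; ring
  · exact ⟨.inr (some x), rfl, trivial⟩
  · exact ⟨.inl (a', y - a' * x), by simp [inc], rfl⟩
  · exact ⟨.inr (some x'), trivial, rfl⟩
  · exact ⟨.inr none, trivial, trivial⟩
  · exact ⟨.inr none, trivial, trivial⟩
  · exact ⟨.inl (a, y' - a * x'), rfl, by simp [inc]⟩
  · exact ⟨.inr none, trivial, trivial⟩
  · exact ⟨.inr none, trivial, trivial⟩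

lemma ex_point (l m : T F) : ∃ p, inc p l ∧ inc p m := by
  rcases l with ⟨s, c⟩ | _ | a <;> rcases m with ⟨s', c'⟩ | _ | a'
  · by_cases hs : s = s'
    · exact ⟨.inr (some s), rfl, hs⟩
    · refine ⟨.inl ((c' - c) / (s - s'), s * ((c' - c) / (s - s')) + c), rfl, ?_⟩
      have := sub_ne_zero.2 hs
      simp only [inc]; field_simp; ring
  · exact ⟨.inr (some s), rfl, trivial⟩
  · exact ⟨.inl (a', s * a' + c), rfl, rfl⟩
  · exact ⟨.inr (some s'), trivial, rfl⟩
  · exact ⟨.inr none, trivial, trivial⟩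
  · exact ⟨.inr none, trivial, trivial⟩
  · exact ⟨.inl (a, s' * a + c'), rfl, rfl⟩
  · exact ⟨.inr none, trivial, trivial⟩
  · exact ⟨.inr none, trivial, trivial⟩

lemma plane : IsPlane (inc : T F → T F → Prop) := by
  refine ⟨fun p q h => ?_, fun l m h => ?_, ![.inl (0, 0), .inl (1, 1), .inr (some 0), .inr none],
    ?_, fun l => ?_⟩
  · obtain ⟨l, hl⟩ := ex_line p q
    exact ⟨l, hl, fun m hm => (uniq p q m l hm.1 hm.2 hl.1 hl.2).resolve_left h⟩
  · obtain ⟨p, hp⟩ := ex_point l m
    exact ⟨p, hp, fun q hq => (uniq q p l m hq.1 hp.1 hq.2 hp.2).resolve_right h⟩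
  · intro i j h
    fin_cases i <;> fin_cases j <;> simp_all
  · have key : ∀ (S : Set (Fin 4)) (a b : Fin 4), S ⊆ {a, b} → S.ncard ≤ 2 := fun S a b h =>
      (Set.ncard_le_ncard h (Set.toFinite _)).trans (Set.ncard_insert_le _ _ |>.trans (by simp))
    rcases l with ⟨s, c⟩ | _ | a
    · by_cases hs : s = 0
      · by_cases hc : c = 0
        · refine key _ 0 2 fun i hi => ?_
          fin_cases i <;> simp_all [inc]
        · refine key _ 1 2 fun i hi => ?_
          fin_cases i <;> simp_all [inc]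
      · refine key _ 0 1 fun i hi => ?_
        fin_cases i <;> simp_all [inc]
    · refine key _ 2 3 fun i hi => ?_
      fin_cases i <;> simp_all [inc]
    · by_cases ha : a = 0
      · refine key _ 0 3 fun i hi => ?_
        fin_cases i <;> simp_all [inc]
      · refine key _ 1 3 fun i hi => ?_
        fin_cases i <;> simp_all [inc]

end

lemma adj_l {P L : Type} {I : P → L → Prop} {p : P} {v : P ⊕ L} :
    (incGraph I).Adj (.inl p) v ↔ ∃ l, v = .inr l ∧ I p l := by
  rcases v with q | l <;> simp [incGraph]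

lemma adj_r {P L : Type} {I : P → L → Prop} {l : L} {v : P ⊕ L} :
    (incGraph I).Adj (.inr l) v ↔ ∃ p, v = .inl p ∧ I p l := by
  rcases v with q | l <;> simp [incGraph]

lemma cnt {p : ℕ} [Fact p.Prime] {X : Type} [Finite X] (t0 : ZMod p) (g : ZMod p → X)
    (hg : Function.Injective g) (S : Set X) (hS : ∀ t, t ≠ t0 → g t ∈ S) : p - 1 ≤ S.ncard := by
  have h1 : g '' ({t0}ᶜ) ⊆ S := by
    rintro _ ⟨t, ht, rfl⟩
    exact hS t ht
  refine le_trans ?_ (Set.ncard_le_ncard h1 (Set.toFinite _))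
  rw [Set.ncard_image_of_injective _ hg]
  have := Set.ncard_add_ncard_compl ({t0} : Set (ZMod p))
  rw [Set.ncard_singleton, Nat.card_zmod] at this
  omega

section
variable {p : ℕ} [Fact p.Prime] {F : Type} [Field F] [Finite F] [Algebra (ZMod p) F]
  (τ : F →ₗ[ZMod p] ZMod p) (A : Submodule (ZMod p) F)

def PS : T F → Prop
  | .inl (x, y) => x ∈ A ∧ τ y = 0
  | .inr (some m) => ∃ x ∈ A, τ (m * x) ≠ 0
  | .inr none => False

def DS : Set (T F ⊕ T F) :=
  {v | match v with
    | .inl q => PS τ A q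
    | .inr l => ∀ q, PS τ A q → ¬ inc q l}

omit [Finite F] in
lemma smul_inj {a : F} (ha : a ≠ 0) : Function.Injective (fun t : ZMod p => t • a) :=
  smul_left_injective _ ha

lemma dis (hsep : ∀ x, x ∉ A → ∃ u, (∀ a ∈ A, τ (u * a) = 0) ∧ τ (u * x) ≠ 0)
    (hA : ∃ x, x ∉ A) (hker : ∀ m, ∃ a ∈ A, a ≠ 0 ∧ τ (m * a) = 0) :
    IsDIS (p - 1) (incGraph (inc : T F → T F → Prop)) (DS τ A) := by
  obtain ⟨x1, hx1⟩ := hA
  obtain ⟨u1, hu1, hu1'⟩ := hsep x1 hx1
  have vert : ∀ c, c ∉ A → (.inr (.inr (some c)) : T F ⊕ T F) ∈ DS τ A := by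
    intro c hc q hq hi
    rcases q with ⟨x, y⟩ | _ | m
    · exact hc (hi ▸ hq.1)
    · exact hq
    · exact hi
  have slant : ∀ m c, (∀ a ∈ A, τ (m * a) = 0) → τ c ≠ 0 →
      (.inr (.inl (m, c)) : T F ⊕ T F) ∈ DS τ A := by
    intro m c hm hc q hq hi
    rcases q with ⟨x, y⟩ | _ | m'
    · have h1 : y = m * x + c := hi
      have h2 := hq.2
      rw [h1, map_add, hm x hq.1, zero_add] at h2
      exact hc h2
    · exact hq
    · have h1 : m' = m := hi
      obtain ⟨x, hx, h2⟩ := hq
      exact h2 (h1 ▸ hm x hx)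
  refine ⟨?_, ?_⟩
  · rintro (q | l) hu v hv h
    · obtain ⟨l, rfl, hi⟩ := adj_l.1 h
      exact hv q hu hi
    · obtain ⟨q, rfl, hi⟩ := adj_r.1 h
      exact hu q hv hi
  · rintro (q | l) hv
    · rcases q with ⟨x, y⟩ | _ | m
      · obtain ⟨u, hu0, hu, t0, ht⟩ : ∃ u, u ≠ 0 ∧ (∀ a ∈ A, τ (u * a) = 0) ∧
            ∃ t0 : ZMod p, ∀ t, t ≠ t0 → τ y ≠ t * τ (u * x) := by
          by_cases hx : x ∈ A
          · refine ⟨u1, by rintro rfl; simp at hu1', hu1, 0, fun t _ h => hv ⟨hx, ?_⟩⟩
            rw [h, hu1 x hx, mul_zero]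
          · obtain ⟨u, h1, h2⟩ := hsep x hx
            refine ⟨u, by rintro rfl; simp at h2, h1, τ y / τ (u * x), fun t ht h => ht ?_⟩
            rw [h, mul_div_cancel_right₀ _ h2]
        refine cnt t0 (fun t => .inr (.inl (t • u, y - t • u * x))) ?_ _ fun t h => ⟨?_, ?_⟩
        · intro t t' h
          simp only [Sum.inr.injEq, Sum.inl.injEq, Prod.mk.injEq] at h
          exact smul_inj hu0 h.1
        · exact adj_l.2 ⟨_, rfl, by simp [inc]⟩
        · refine slant _ _ (fun a ha => by rw [smul_mul_assoc, map_smul, hu a ha, smul_zero]) ?_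
          rw [map_sub, smul_mul_assoc, map_smul, smul_eq_mul]
          exact sub_ne_zero.2 (ht t h)
      · refine cnt 0 (fun t => .inr (.inr (some (t • x1)))) ?_ _ fun t h => ⟨?_, ?_⟩
        · intro t t' h
          simp only [Sum.inr.injEq, Option.some.injEq] at h
          exact smul_inj (by rintro rfl; exact hx1 A.zero_mem) h
        · exact adj_l.2 ⟨_, rfl, trivial⟩
        · exact vert _ fun h' => hx1 ((A.smul_mem_iff h).1 h')
      · have hm : ∀ a ∈ A, τ (m * a) = 0 := fun a ha => by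
          by_contra h
          exact hv ⟨a, ha, h⟩
        refine cnt 0 (fun t => .inr (.inl (m, t • (u1 * x1)))) ?_ _ fun t h => ⟨?_, ?_⟩
        · intro t t' h
          simp only [Sum.inr.injEq, Sum.inl.injEq, Prod.mk.injEq, true_and] at h
          exact smul_inj (by intro h0; rw [h0] at hu1'; simp at hu1') h
        · exact adj_l.2 ⟨_, rfl, rfl⟩
        · exact slant _ _ hm (by rw [map_smul, smul_eq_mul]; exact mul_ne_zero h hu1')
    · have hv' : ∃ q, PS τ A q ∧ inc q l := by
        by_contra h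
        exact hv fun q h1 h2 => h ⟨q, h1, h2⟩
      obtain ⟨q, hq, hi⟩ := hv'
      rcases l with ⟨m, c⟩ | _ | c
      · obtain ⟨x, hx, hx'⟩ : ∃ x ∈ A, τ (m * x + c) = 0 := by
          rcases q with ⟨x, y⟩ | _ | m'
          · have h1 : y = m * x + c := hi
            exact ⟨x, hq.1, h1 ▸ hq.2⟩
          · exact hq.elim
          · have h1 : m' = m := hi
            subst h1
            obtain ⟨x, hx, h2⟩ := hq
            refine ⟨(-τ c / τ (m' * x)) • x, A.smul_mem _ hx, ?_⟩
            rw [map_add, mul_smul_comm, map_smul, smul_eq_mul, div_mul_cancel₀ _ h2]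
            ring
        obtain ⟨a, ha, ha0, ha'⟩ := hker m
        refine cnt 0 (fun t => .inl (.inl (x + t • a, m * (x + t • a) + c))) ?_ _
          fun t _ => ⟨?_, ?_⟩
        · intro t t' h
          simp only [Sum.inl.injEq, Prod.mk.injEq, add_right_inj] at h
          exact smul_inj ha0 h.1
        · exact adj_r.2 ⟨_, rfl, rfl⟩
        · refine ⟨A.add_mem hx (A.smul_mem _ ha), ?_⟩
          rw [mul_add, add_right_comm, map_add, hx', mul_smul_comm, map_smul, ha']
          simp
      · rcases q with ⟨x, y⟩ | _ | m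
        · exact hi.elim
        · exact hq.elim
        · obtain ⟨x, hx, h2⟩ := hq
          refine cnt 0 (fun t => .inl (.inr (some (t • m)))) ?_ _
            fun t h => ⟨?_, ?_⟩
          · intro t t' h
            simp only [Sum.inl.injEq, Sum.inr.injEq, Option.some.injEq] at h
            exact smul_inj (by rintro rfl; simp at h2) h
          · exact adj_r.2 ⟨_, rfl, trivial⟩
          · refine ⟨x, hx, ?_⟩
            rw [smul_mul_assoc, map_smul, smul_eq_mul]
            exact mul_ne_zero h h2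
      · rcases q with ⟨x, y⟩ | _ | m
        · have h1 : x = c := hi
          subst h1
          obtain ⟨b, -, hb0, hb⟩ := hker 1
          rw [one_mul] at hb
          refine cnt 0 (fun t => .inl (.inl (x, t • b))) ?_ _
            fun t _ => ⟨?_, ?_⟩
          · intro t t' h
            simp only [Sum.inl.injEq, Prod.mk.injEq, true_and] at h
            exact smul_inj hb0 h
          · exact adj_r.2 ⟨_, rfl, rfl⟩
          · exact ⟨hq.1, by rw [map_smul, hb, smul_zero]⟩
        · exact hq.elim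
        · exact hi.elim

end

lemma many (p r : ℕ) [Fact p.Prime] (hr : 2 ≤ r) :
    p ^ (r * r) ≤ {D | IsDIS (p - 1)
      (incGraph (inc : T (GaloisField p (2 * r)) → T (GaloisField p (2 * r)) → Prop)) D}.ncard := by
  set F := GaloisField p (2 * r)
  obtain ⟨e⟩ : Nonempty (((Fin r → ZMod p) × (Fin r → ZMod p)) ≃ₗ[ZMod p] F) :=
    FiniteDimensional.nonempty_linearEquiv_of_finrank_eq (by
      rw [GaloisField.finrank p (by omega), Module.finrank_prod]; simp; ring)
  let τ := Algebra.trace (ZMod p) F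
  let g : ((Fin r → ZMod p) →ₗ[ZMod p] (Fin r → ZMod p)) → Set (T F ⊕ T F) :=
    fun φ => DS τ (φ.graph.map e.toLinearMap)
  have hmem : ∀ (φ : (Fin r → ZMod p) →ₗ[ZMod p] (Fin r → ZMod p)) v w,
      e (v, w) ∈ φ.graph.map e.toLinearMap ↔ w = φ v := by
    intro φ v w
    rw [Submodule.mem_map_equiv]
    simp [LinearMap.mem_graph_iff]
  have hg : Function.Injective g := by
    intro φ ψ h
    refine LinearMap.ext fun v => ?_
    have h1 : (.inl (.inl (e (v, φ v), 0)) : T F ⊕ T F) ∈ g φ := ⟨(hmem φ _ _).2 rfl, map_zero _⟩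
    rw [h] at h1
    exact (hmem ψ _ _).1 h1.1
  have hsub : Set.range g ⊆ {D | IsDIS (p - 1) (incGraph (inc : T F → T F → Prop)) D} := by
    rintro _ ⟨φ, rfl⟩
    refine dis τ _ ?_ ⟨e (0, 1), fun h => ?_⟩ ?_
    · intro x hx
      obtain ⟨f, h1, h2⟩ := Submodule.exists_dual_map_eq_bot_of_notMem hx inferInstance
      have hf : ∀ v, τ (((Algebra.traceForm (ZMod p) F).toDual
          (traceForm_nondegenerate (ZMod p) F)).symm f * v) = f v := fun v =>
        LinearMap.BilinForm.apply_toDual_symm_apply (B := Algebra.traceForm (ZMod p) F) f v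
      refine ⟨_, fun a ha => ?_, by rw [hf]; exact h1⟩
      rw [hf]
      have : f a ∈ Submodule.map f _ := Submodule.mem_map_of_mem ha
      rwa [h2, Submodule.mem_bot] at this
    · have := congrFun ((hmem φ _ _).1 h) ⟨0, by omega⟩
      simp at this
    · intro m
      let ψ : (Fin r → ZMod p) →ₗ[ZMod p] ZMod p :=
        τ ∘ₗ LinearMap.mulLeft (ZMod p) m ∘ₗ e.toLinearMap ∘ₗ LinearMap.prod LinearMap.id φ
      obtain ⟨v, hv, hv0⟩ := Submodule.exists_mem_ne_zero_of_ne_bot
        (LinearMap.ker_ne_bot_of_finrank_lt (f := ψ) (by simp; omega))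
      refine ⟨e (v, φ v), (hmem φ _ _).2 rfl, fun h => hv0 ?_, hv⟩
      have := e.injective (h.trans (map_zero e).symm)
      exact congrArg Prod.fst this
  refine le_trans ?_ (Set.ncard_le_ncard hsub (Set.toFinite _))
  rw [Set.ncard_range_of_injective hg, Module.natCard_eq_pow_finrank (K := ZMod p),
    Module.finrank_linearMap]
  simp

theorem result (k : ℕ) (_hk : 1 ≤ k) (C c : ℕ) :
    ∃ (P L : Type) (_ : Finite P) (_ : Finite L) (I : P → L → Prop), IsPlane I ∧
      C * (Nat.card P + Nat.card L) ^ c < {D | IsDIS k (incGraph I) D}.ncard := by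
  obtain ⟨p, hp, hpp⟩ := Nat.exists_infinite_primes (k + 1)
  haveI : Fact p.Prime := ⟨hpp⟩
  have h2 := hpp.two_le
  set r := C + 7 * c + 2 with hr
  refine ⟨T (GaloisField p (2 * r)), T (GaloisField p (2 * r)), inferInstance, inferInstance, inc,
    plane, lt_of_lt_of_le ?_ ((many p r (by omega)).trans (Set.ncard_le_ncard
      (fun D hD => ⟨hD.1, fun v hv => le_trans (by omega) (hD.2 v hv)⟩) (Set.toFinite _)))⟩
  have hq : Nat.card (GaloisField p (2 * r)) = p ^ (2 * r) := GaloisField.card p _ (by omega)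
  have hT : Nat.card (T (GaloisField p (2 * r))) = p ^ (2 * r) * p ^ (2 * r) + (p ^ (2 * r) + 1) := by
    rw [Nat.card_sum, Nat.card_prod, Finite.card_option, hq]
  have h1 : 1 ≤ p ^ (2 * r) := Nat.one_le_pow _ _ (by omega)
  have h8 : 8 ≤ p ^ 3 := le_trans (by norm_num) (Nat.pow_le_pow_left h2 3)
  have hn : Nat.card (T (GaloisField p (2 * r))) + Nat.card (T (GaloisField p (2 * r))) ≤
      p ^ (3 + 4 * r) := by
    rw [hT, (by ring : p ^ (3 + 4 * r) = p ^ 3 * (p ^ (2 * r) * p ^ (2 * r)))]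
    nlinarith
  have hC : C < p ^ C := lt_of_lt_of_le Nat.lt_two_pow_self (Nat.pow_le_pow_left h2 C)
  calc _ ≤ C * (p ^ (3 + 4 * r)) ^ c := Nat.mul_le_mul_left _ (Nat.pow_le_pow_left hn c)
    _ < p ^ C * (p ^ (3 + 4 * r)) ^ c := Nat.mul_lt_mul_of_pos_right hC (by positivity)
    _ = p ^ (C + (3 + 4 * r) * c) := by rw [← pow_mul, ← pow_add]
    _ ≤ p ^ (r * r) := Nat.pow_le_pow_right (by omega) (by nlinarith)

end Pool.Agent.Results.MP_a51b5f_co.Superpoly
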